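import Pool.Agent.W550.Murre.Defs

/-!
# Bloch's conjecture on correspondences between surfaces: definitions
-/

open CategoryTheory AlgebraicGeometry

universe u v w

namespace Pool.Agent.W550.Bloch

open Pool.Agent.H914 Pool.Agent.H914.VarClass Pool.Agent.H914.VarClass.Obj Pool.Agent.W492.BB
  Pool.Agent.W550.Corr Pool.Agent.W550.Murre

variable {k : Type u} [Field k] {𝒱 : VarClass k}

/-- The zero-cycles `z` on the surface `S` (with rational coefficients) in `F^2 CH_0(S)`, i.e. of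
degree zero and in the kernel of the Albanese map: `Γ_* z = 0` for all smooth curves `D` and all
`Γ` in `CH^1(S × D)`. -/
def F2 (C : TheoryData.{u, v, 0} 𝒱 ℚ) (S : 𝒱.Obj) : Set (C.A S) :=
  {z | C.Deg 2 z ∧ ∀ D : 𝒱.Obj, D.dim = 1 → ∀ Γ : C.A (S.prod D), C.Deg 1 Γ → C.act Γ z = 0}

/-- The correspondences in `CH^2(S × T)` which are sums of compositions `S ⟶ D ⟶ T` through
curves `D`. -/
noncomputable def ThroughCurves (C : TheoryData.{u, v, 0} 𝒱 ℚ) (S T : 𝒱.Obj) : Submodule ℚ (C.A (S.prod T)) :=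
  Submodule.span ℚ {Y | ∃ D : 𝒱.Obj, D.dim = 1 ∧ ∃ (Γ : C.A (S.prod D)) (Δ : C.A (D.prod T)),
    ((C.Deg 1 Γ ∧ C.Deg 2 Δ) ∨ (C.Deg 2 Γ ∧ C.Deg 1 Δ)) ∧ Y = C.comp Γ Δ}

/-- The action `Γ^* : H(Y) → H(X)`, `b ↦ p_* (Γ · q^* b)` of a class `Γ` on `X × Y`. -/
noncomputable def coact {F : Type w} [Field F] (T : TheoryData.{u, v, w} 𝒱 F) {X Y : 𝒱.Obj}
    (Γ : T.A (X.prod Y)) (b : T.A Y) : T.A X :=
  T.down (fst X Y) (T.mul Γ (T.up (snd X Y) b))

/-- The surface `W` is a complete intersection, in `S × T`, of two divisors in the class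
`p^* h + q^* h'`, with `h` and `h'` ample divisors on the surfaces `S` and `T`. What is used:
the class of `W` is `(p^* h + q^* h')^2`, the projections `f`, `g` of `W` to `S` and `T` are
generically finite, and `h^2` has nonzero degree. -/
structure IsBox (C : TheoryData.{u, v, 0} 𝒱 ℚ) {S T W : 𝒱.Obj} (f : W ⟶ S) (g : W ⟶ T)
    (h : C.A S) (h' : C.A T) : Prop where
  deg : C.Deg 1 h
  deg' : C.Deg 1 h'
  down : ∃ r : ℚ, r ≠ 0 ∧ C.down f 1 = r • 1
  down' : ∃ r : ℚ, r ≠ 0 ∧ C.down g 1 = r • 1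
  self : ∃ m : ℚ, IsDegOne C S (m • h ^ 2)
  class_eq : C.down (Obj.lift f g) 1 = (C.up (fst S T) h + C.up (snd S T) h') ^ 2

/-- Every product of two surfaces contains such a surface (Bertini's theorem). -/
def HasBoxes (C : TheoryData.{u, v, 0} 𝒱 ℚ) : Prop := ∀ S T : 𝒱.Obj, S.dim = 2 → T.dim = 2 →
  ∃ (W : 𝒱.Obj) (f : W ⟶ S) (g : W ⟶ T) (h : C.A S) (h' : C.A T), W.dim = 2 ∧ IsBox C f g h h'

/-- The variety `W` dominates `V`: there is a generically finite morphism `e : W ⟶ V`. -/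
def Dominates (C : TheoryData.{u, v, 0} 𝒱 ℚ) (W V : 𝒱.Obj) : Prop :=
  ∃ (e : W ⟶ V) (r : ℚ), r ≠ 0 ∧ C.down e 1 = r • 1

variable {C : TheoryData.{u, v, 0} 𝒱 ℚ} {K : Type w} [Field K] (H : WeilTheoryData.{u, v, w} C K)

/-- The subspaces `H^(2,0)(T)` of the cohomology of surfaces `T`, and the consequence of the
theorem of Lefschetz on (1,1)-classes, and of the hard Lefschetz theorem, for products of two
surfaces: the action of a cycle `Z` on `H^(2,0)` is zero if and only if `Z` is homologically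
equivalent to a sum of compositions through curves. -/
structure HodgeTwo where
  /-- the subspace `H^(2,0)(T)` -/
  H20 : ∀ T : 𝒱.Obj, Submodule K (H.A T)
  lefschetz : ∀ S T : 𝒱.Obj, S.dim = 2 → T.dim = 2 → ∀ Z : C.A (S.prod T), C.Deg 2 Z →
    ((∀ ω ∈ H20 T, coact H.toTheoryData (H.cl Z) ω = 0) ↔
      ∃ Y ∈ ThroughCurves C S T, H.cl Z = H.cl Y)

/-- Bloch's conjecture for the surfaces `S` and `T`. -/
def BlochFor (hd : HodgeTwo H) (S T : 𝒱.Obj) : Prop :=
  ∀ Z : C.A (S.prod T), C.Deg 2 Z → (∀ ω ∈ hd.H20 T, coact H.toTheoryData (H.cl Z) ω = 0) →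
    ∀ z ∈ F2 C S, C.act Z z = 0

/-- Bloch's conjecture for homologically trivial correspondences from `S` to `T`. -/
def HomTrivialFor (S T : 𝒱.Obj) : Prop :=
  ∀ Z : C.A (S.prod T), C.Deg 2 Z → H.cl Z = 0 → ∀ z ∈ F2 C S, C.act Z z = 0

/-- Bloch's conjecture for homologically trivial correspondences from `W` to `W` with square
zero. -/
def SquareZeroFor (W : 𝒱.Obj) : Prop :=
  ∀ Ψ : C.A (W.prod W), C.Deg 2 Ψ → H.cl Ψ = 0 → C.comp Ψ Ψ = 0 → ∀ z ∈ F2 C W, C.act Ψ z = 0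

end Pool.Agent.W550.Bloch
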