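import Pool.Agent.W550.Bloch.Defs
import Pool.Agent.W550.Murre.Main

/-!
# Bloch's conjecture for surfaces is equivalent to its square zero case
-/

open CategoryTheory AlgebraicGeometry

universe u v w

namespace Pool.Agent.W550.Bloch

open Pool.Agent.H914 Pool.Agent.H914.VarClass Pool.Agent.H914.VarClass.Obj Pool.Agent.W492.BB
  Pool.Agent.W550.Corr Pool.Agent.W550.Murre

variable {k : Type u} [Field k] {𝒱 : VarClass k} {C : TheoryData.{u, v, 0} 𝒱 ℚ} {K : Type w}
  [Field K] {H : WeilTheoryData.{u, v, w} C K} [hC : IsChow C] [hH : IsWeil H]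
  {S T W X Y Z : 𝒱.Obj}

section basic

variable [hI : HasIso C]

lemma comp_graph (Γ : C.A (X.prod Y)) (p : Y ⟶ Z) :
    C.comp Γ (C.graph p) = C.push (prodMap (𝟙 X) p) Γ := by
  rw [comp_eq_extR, extR_graph]

lemma cograph_comp_graph (q : W ⟶ T) (p : W ⟶ S) :
    C.comp (C.cograph q) (C.graph p) = C.push (Obj.lift q p) 1 := by
  rw [comp_graph, TheoryData.cograph, ← C.push_comp]
  congr 2
  apply prod_ext <;> simp

lemma comp_comp_ext (Z₁ : C.A (S.prod T)) (b : C.A T) (a : C.A S) :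
    C.comp (C.comp Z₁ (C.ext b a)) Z₁ = C.ext (C.act (tp C Z₁) b) (C.act Z₁ a) := by
  have h1 := act_tens C (tp C Z₁) Z₁ (C.ext b a)
  rw [tp_tp] at h1
  rw [← h1]
  exact act_tens_ext C _ _ (fun V f c => chow_mul_comm _ _) b a

omit hI in
lemma act_ext (β : C.A X) (c : C.A Y) (x : C.A X) :
    C.act (C.ext β c) x = C.push (snd X Y) (C.pull (fst X Y) (β * x)) * c := by
  rw [C.act_apply, TheoryData.ext, chow_mul_comm (C.pull (fst X Y) β), mul_assoc, ← map_mul,
    C.proj_left, chow_mul_comm]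

end basic

lemma push_pull (e : X ⟶ Y) {r : ℚ} (hr : C.down e 1 = r • 1) (b : C.A Y) :
    C.push e (C.pull e b) = r • b := by
  have h1 := C.proj_right e 1 b
  rw [one_mul] at h1
  rw [h1]
  have h2 : C.push e 1 = r • 1 := hr
  rw [h2, smul_mul_assoc, one_mul]

lemma deg_graph (p : X ⟶ Y) : C.graph p ∈ C.gr (X.prod Y) Y.dim := by
  have h := C.push_mem (Obj.lift (𝟙 X) p) (C.one_mem X)
  rwa [show (0 : ℤ) + 1 * (((X.prod Y).dim : ℤ) - (X.dim : ℤ)) = Y.dim by
    simp only [dim_prod]; push_cast; ring] at h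

lemma deg_cograph (p : X ⟶ Y) : C.cograph p ∈ C.gr (Y.prod X) Y.dim := by
  have h := C.push_mem (Obj.lift p (𝟙 X)) (C.one_mem X)
  rwa [show (0 : ℤ) + 1 * (((Y.prod X).dim : ℤ) - (X.dim : ℤ)) = Y.dim by
    simp only [dim_prod]; push_cast; ring] at h

/-- The pull-back of a class in `F^2`. -/
lemma pull_mem_F2 [hI : HasIso C] (hX : X.dim = 2) (hY : Y.dim = 2) (p : X ⟶ Y) {z : C.A Y}
    (hz : z ∈ F2 C Y) : C.pull p z ∈ F2 C X := by
  refine ⟨C.pull_mem p hz.1, fun D hD Γ hΓ => ?_⟩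
  rw [← C.act_cograph, ← C.act_comp]
  refine hz.2 D hD _ ?_
  have h1 : C.cograph p ∈ C.gr (Y.prod X) (Y.dim + 0) := by
    rw [add_zero]; exact deg_cograph p
  have h2 : Γ ∈ C.gr (X.prod D) (X.dim + (-1)) := by
    rw [hX]; exact hΓ
  have h3 := deg_comp h1 h2
  rw [hY] at h3
  exact h3

/-- Compositions through curves kill `F^2`. -/
lemma act_throughCurves [hS : IsStandard H] (hSd : S.dim = 2) {Y : C.A (S.prod T)}
    (hY : Y ∈ ThroughCurves C S T) {z : C.A S} (hz : z ∈ F2 C S) : C.act Y z = 0 := by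
  have h1 : ThroughCurves C S T ≤ LinearMap.ker ((actB C (X := S) (Y := T)).flip z) := by
    refine Submodule.span_le.2 ?_
    rintro _ ⟨D, hD, Γ, Δ, h, rfl⟩
    rw [SetLike.mem_coe, LinearMap.mem_ker]
    change C.act (C.comp Γ Δ) z = 0
    rw [C.act_comp]
    rcases h with h | h
    · rw [hz.2 D hD Γ h.1, C.act_map_zero]
    · have h2 : C.act Γ z ∈ C.gr D 2 := by
        have := act_mem (C := C) (X := S) (Y := D) (e := 0) (i := 2) (Γ := Γ)
          (by rw [hSd]; exact h.1) hz.1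
        simpa using this
      rw [hS.gr_top D 2 _ (by rw [hD]; norm_num) h2, C.act_map_zero]
  exact LinearMap.mem_ker.1 (h1 hY)

/-- The main reduction: the square zero case for a surface `W'` which dominates a surface
`W ⊆ S × T` as above implies the homologically trivial case for `S` and `T`. -/
theorem homTrivial_of_squareZero [hI : HasIso C] [hS : IsStandard H] (hSd : S.dim = 2)
    (hTd : T.dim = 2)
    {f : W ⟶ S} {g : W ⟶ T} {h : C.A S} {h' : C.A T} (hb : IsBox C f g h h')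
    {W' : 𝒱.Obj} (hWd' : W'.dim = 2) (hdom : Dominates C W' W) (hsq : SquareZeroFor H W') :
    HomTrivialFor H S T := by
  intro Z hZ hZ0 z hz
  obtain ⟨e, r₀, hr₀, he⟩ := hdom
  obtain ⟨r₁, hr₁, hf⟩ := hb.down
  obtain ⟨r₂, hr₂, hg⟩ := hb.down'
  obtain ⟨m, hm⟩ := hb.self
  have hh : h ∈ C.gr S 1 := hb.deg
  -- `Z₁ = Z - β × c` kills `h`
  set c : C.A T := C.act Z h with hc
  set β : C.A S := m • h with hβ
  have hβm : β ∈ C.gr S 1 := Submodule.smul_mem _ m hh
  have hcm : c ∈ C.gr T 1 := by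
    have := act_mem (C := C) (X := S) (Y := T) (e := 0) (i := 1) (Γ := Z)
      (by rw [hSd]; exact hZ) hh
    simpa using this
  have hc0 : H.cl c = 0 := by rw [hc, cl_act, hZ0, H.act_zero]
  have hβh : β * h = m • h ^ 2 := by rw [hβ, smul_mul_assoc, pow_two]
  have hact1 : C.act (C.ext β c) h = c := by
    rw [act_ext, hβh]
    have h1 : C.push (snd S T) (C.pull (fst S T) (m • h ^ 2)) = 1 := hm.2.2 T
    rw [h1, one_mul]
  have hact2 : C.act (C.ext β c) z = 0 := by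
    have h1 : β * z = 0 := by
      refine hS.gr_top S 3 _ (by rw [hSd]; norm_num) ?_
      exact C.mul_mem hβm hz.1
    rw [act_ext, h1, map_zero, map_zero, zero_mul]
  set Z₁ : C.A (S.prod T) := Z - C.ext β c with hZ₁
  have hZ₁m : Z₁ ∈ C.gr (S.prod T) 2 := Submodule.sub_mem _ hZ (ext_mem hβm hcm)
  have hZ₁0 : H.cl Z₁ = 0 := by
    rw [hZ₁, map_sub, hZ0, cl_ext, hc0, H.ext_zero_right, sub_zero]
  have hZ₁h : C.act Z₁ h = 0 := by rw [hZ₁, C.act_sub, hact1, ← hc, sub_self]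
  have hZ₁z : C.act Z₁ z = C.act Z z := by rw [hZ₁, C.act_sub, hact2, sub_zero]
  have hZ₁1 : C.act Z₁ 1 = 0 := by
    apply hS.cl_inj T
    · have := act_mem (C := C) (X := S) (Y := T) (e := 0) (i := 0) (Γ := Z₁)
        (by rw [hSd]; exact hZ₁m) (C.one_mem S)
      simpa using this
    · rw [cl_act, hZ₁0, H.act_zero]
  have hZ₁t : C.act (tp C Z₁) 1 = 0 := by
    apply hS.cl_inj S
    · have h1 : tp C Z₁ ∈ C.gr (T.prod S) 2 := C.pull_mem _ hZ₁m
      have := act_mem (C := C) (X := T) (Y := S) (e := 0) (i := 0) (Γ := tp C Z₁)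
        (by rw [hTd]; exact h1) (C.one_mem T)
      simpa using this
    · rw [cl_act, tp, H.cl_pull, hZ₁0, map_zero, H.act_zero]
  -- the class of `W'` in `T × S`
  set P : W' ⟶ S := e ≫ f with hP
  set Q : W' ⟶ T := e ≫ g with hQ
  have hPd : C.down P 1 = (r₀ * r₁) • (1 : C.A S) := by
    have h1 : C.push e 1 = r₀ • 1 := he
    have h2 : C.push f 1 = r₁ • 1 := hf
    change C.push P 1 = _
    rw [hP, C.push_comp, h1, map_smul, h2, smul_smul]
  have hQd : C.down Q 1 = (r₀ * r₂) • (1 : C.A T) := by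
    have h1 : C.push e 1 = r₀ • 1 := he
    have h2 : C.push g 1 = r₂ • 1 := hg
    change C.push Q 1 = _
    rw [hQ, C.push_comp, h1, map_smul, h2, smul_smul]
  have hcls : C.push (Obj.lift Q P) 1 = r₀ • (C.ext (h' ^ 2) 1 + (2 : ℚ) • C.ext h' h +
      C.ext 1 (h ^ 2)) := by
    have e1 : Obj.lift Q P = e ≫ Obj.lift f g ≫ sw S T := by
      apply prod_ext <;> simp [hP, hQ, sw]
    have h1 : C.push e 1 = r₀ • 1 := he
    have h2 : C.push (Obj.lift f g) 1 = (C.pull (fst S T) h + C.pull (snd S T) h') ^ 2 :=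
      hb.class_eq
    rw [e1, C.push_comp, h1, map_smul, C.push_comp, h2, ← pull_iso C (sw T S) (sw S T) sw_sw sw_sw,
      map_pow, map_add, ← C.pull_comp, ← C.pull_comp]
    have e2 : sw T S ≫ fst S T = snd T S := by simp [sw]
    have e3 : sw T S ≫ snd S T = fst T S := by simp [sw]
    rw [e2, e3, TheoryData.ext, TheoryData.ext, TheoryData.ext, map_one, map_one, mul_one,
      one_mul, map_pow, map_pow, pow_two, mul_add, add_mul, add_mul,
      chow_mul_comm (C.pull (snd T S) h) (C.pull (fst T S) h'), pow_two, pow_two, two_smul]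
    congr 1
    abel
  -- the square zero correspondence
  set Ψ : C.A (W'.prod W') := C.comp (C.comp (C.graph P) Z₁) (C.cograph Q) with hΨ
  have hΨm : Ψ ∈ C.gr (W'.prod W') 2 := by
    have h1 : C.graph P ∈ C.gr (W'.prod S) (W'.dim + 0) := by
      have := deg_graph (C := C) P
      rwa [hSd, ← hWd', ← add_zero (W'.dim : ℤ)] at this
    have h2 : Z₁ ∈ C.gr (S.prod T) (S.dim + 0) := by
      rw [hSd]; exact hZ₁m
    have h3 : C.cograph Q ∈ C.gr (T.prod W') (T.dim + 0) := by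
      rw [add_zero]; exact deg_cograph Q
    have h4 := deg_comp (deg_comp h1 h2) h3
    rw [hWd'] at h4
    simpa using h4
  have hΨ0 : H.cl Ψ = 0 := by
    rw [hΨ, cl_comp, cl_comp, hZ₁0, comp_zero, zero_comp]
  have hmid : C.comp (C.comp Z₁ (C.comp (C.cograph Q) (C.graph P))) Z₁ = 0 := by
    rw [cograph_comp_graph, hcls]
    have h1 : C.comp (C.comp Z₁ (r₀ • (C.ext (h' ^ 2) 1 + (2 : ℚ) • C.ext h' h +
        C.ext 1 (h ^ 2)))) Z₁ = r₀ • (C.comp (C.comp Z₁ (C.ext (h' ^ 2) 1)) Z₁ +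
        (2 : ℚ) • C.comp (C.comp Z₁ (C.ext h' h)) Z₁ +
        C.comp (C.comp Z₁ (C.ext 1 (h ^ 2))) Z₁) := by
      simp only [← compL_apply, map_smul, map_add, LinearMap.smul_apply, LinearMap.add_apply]
    rw [h1, comp_comp_ext, comp_comp_ext, comp_comp_ext, hZ₁1, hZ₁h, hZ₁t, C.ext_zero_right,
      C.ext_zero_right, C.ext_zero_left, smul_zero, add_zero, add_zero, smul_zero]
  have hΨ2 : C.comp Ψ Ψ = 0 := by
    have h1 : C.comp Ψ Ψ = C.comp (C.comp (C.graph P)
        (C.comp (C.comp Z₁ (C.comp (C.cograph Q) (C.graph P))) Z₁)) (C.cograph Q) := by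
      rw [hΨ]
      simp only [comp_assoc]
    rw [h1, hmid, comp_zero, zero_comp]
  have hPz : C.pull P z ∈ F2 C W' := pull_mem_F2 hWd' hSd P hz
  have h5 := hsq Ψ hΨm hΨ0 hΨ2 _ hPz
  rw [hΨ, C.act_comp, C.act_comp, C.act_graph, C.act_cograph, push_pull P hPd] at h5
  have h6 := push_pull Q hQd (C.act Z₁ ((r₀ * r₁) • z))
  rw [h5, map_zero, act_map_smul, smul_smul, hZ₁z] at h6
  have h7 : r₀ * r₂ * (r₀ * r₁) ≠ 0 := mul_ne_zero (mul_ne_zero hr₀ hr₂) (mul_ne_zero hr₀ hr₁)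
  exact (smul_eq_zero.1 h6.symm).resolve_left h7

/-- Bloch's conjecture for `S` and `T` is its homologically trivial case. -/
theorem bloch_iff (hS : IsStandard H) (hd : HodgeTwo H) (hSd : S.dim = 2) (hTd : T.dim = 2) :
    BlochFor H hd S T ↔ HomTrivialFor H S T := by
  have hI : HasIso C := hasIso_of_std H hS
  constructor
  · intro h Z hZ hZ0 z hz
    refine h Z hZ (fun ω _ => ?_) z hz
    rw [coact, hZ0]
    simp
  · intro h Z hZ hZω z hz
    obtain ⟨Y, hY, hZY⟩ := (hd.lefschetz S T hSd hTd Z hZ).1 hZω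
    have hYm : Y ∈ C.gr (S.prod T) 2 := by
      have h1 : ThroughCurves C S T ≤ C.gr (S.prod T) 2 := by
        refine Submodule.span_le.2 ?_
        rintro _ ⟨D, hD, Γ, Δ, h, rfl⟩
        rcases h with h | h
        · have h2 : Γ ∈ C.gr (S.prod D) (S.dim + (-1)) := by rw [hSd]; exact h.1
          have h3 : Δ ∈ C.gr (D.prod T) (D.dim + 1) := by rw [hD]; exact h.2
          have h4 := deg_comp h2 h3
          rw [hSd] at h4
          simpa using h4
        · have h2 : Γ ∈ C.gr (S.prod D) (S.dim + 0) := by rw [hSd]; exact h.1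
          have h3 : Δ ∈ C.gr (D.prod T) (D.dim + 0) := by rw [hD]; exact h.2
          have h4 := deg_comp h2 h3
          rw [hSd] at h4
          simpa using h4
      exact h1 hY
    have h1 := h (Z - Y) (Submodule.sub_mem _ hZ hYm) (by rw [map_sub, hZY, sub_self]) z hz
    rw [C.act_sub, act_throughCurves (H := H) hSd hY hz, sub_zero] at h1
    exact h1

theorem bloch_tfae (hS : IsStandard H) (hB : HasBoxes C) (hd : HodgeTwo H) (𝒲 : Set 𝒱.Obj)
    (h𝒲 : ∀ V : 𝒱.Obj, V.dim = 2 → ∃ W ∈ 𝒲, W.dim = 2 ∧ Dominates C W V) :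
    [∀ S T : 𝒱.Obj, S.dim = 2 → T.dim = 2 → BlochFor H hd S T,
      ∀ S T : 𝒱.Obj, S.dim = 2 → T.dim = 2 → HomTrivialFor H S T,
      ∀ W ∈ 𝒲, W.dim = 2 → SquareZeroFor H W].TFAE := by
  have hI : HasIso C := hasIso_of_std H hS
  tfae_have 1 → 2 := fun h S T hSd hTd => (bloch_iff hS hd hSd hTd).1 (h S T hSd hTd)
  tfae_have 2 → 1 := fun h S T hSd hTd => (bloch_iff hS hd hSd hTd).2 (h S T hSd hTd)
  tfae_have 2 → 3 := fun h W _ hWd Ψ hΨ hΨ0 _ z hz => h W W hWd hWd Ψ hΨ hΨ0 z hz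
  tfae_have 3 → 2 := by
    intro h S T hSd hTd
    obtain ⟨W, f, g, a, b, hWd, hb⟩ := hB S T hSd hTd
    obtain ⟨W', hW', hWd', hdom⟩ := h𝒲 W hWd
    exact homTrivial_of_squareZero hSd hTd hb hWd' hdom (h W' hW' hWd')
  tfae_finish

end Pool.Agent.W550.Bloch
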