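import Pool.Agent.W550.Bloch.Defs

/-!
# Bloch's conjecture for self-correspondences of surfaces: definitions
-/

open CategoryTheory AlgebraicGeometry

universe u v w

namespace Pool.Agent.W550.Bloch

open Pool.Agent.H914 Pool.Agent.H914.VarClass Pool.Agent.H914.VarClass.Obj Pool.Agent.W492.BB
  Pool.Agent.W550.Corr Pool.Agent.W550.Murre

variable {k : Type u} [Field k] {𝒱 : VarClass k} {C : TheoryData.{u, v, 0} 𝒱 ℚ} {K : Type w}
  [Field K] (H : WeilTheoryData.{u, v, w} C K)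

/-- The kernel of the Albanese map (with rational coefficients) of the surface `S`: homologically
trivial zero-cycles `z` with `Γ_* z = 0` for all smooth curves `D` and all `Γ` in
`CH^1(S × D)`. -/
def AlbKer (S : 𝒱.Obj) : Set (C.A S) := {z | z ∈ F2 C S ∧ H.cl z = 0}

/-- `Γ` acts as zero on the subspace `M` of `H(X)`. -/
def ZeroOn {X : 𝒱.Obj} (M : Submodule K (H.A X)) (Γ : C.A (X.prod X)) : Prop :=
  ∀ ω ∈ M, H.act (H.cl Γ) ω = 0

/-- `Γ` acts as zero on the Albanese kernel. -/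
def ZeroOnKer {X : 𝒱.Obj} (Γ : C.A (X.prod X)) : Prop := ∀ z ∈ AlbKer H X, C.act Γ z = 0

/-- `Γ` is homologically equivalent to a sum of compositions through curves. -/
def HomThroughCurves {X : 𝒱.Obj} (Γ : C.A (X.prod X)) : Prop :=
  ∃ Y ∈ ThroughCurves C X X, H.cl Γ = H.cl Y

/-- The subspaces `H^(2,0)(X)` of the cohomology of surfaces `X`, with two known theorems on
self-correspondences: `lefschetz`: the action of a cycle `Γ` on `H^(2,0)(X)` is zero if and only if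
`Γ` is homologically equivalent to a sum of compositions through curves (this follows from the
theorem of Lefschetz on (1,1)-classes and the hard Lefschetz theorem); `mumford`: if `Γ` acts as
zero on the kernel of the Albanese map, then it acts as zero on `H^(2,0)(X)` (Mumford,
Bloch-Srinivas). -/
structure HodgeSelf where
  /-- the subspace `H^(2,0)(X)` -/
  H20 : ∀ X : 𝒱.Obj, Submodule K (H.A X)
  lefschetz : ∀ X : 𝒱.Obj, X.dim = 2 → ∀ Γ : C.A (X.prod X), C.Deg 2 Γ →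
    (ZeroOn H (H20 X) Γ ↔ HomThroughCurves H Γ)
  mumford : ∀ X : 𝒱.Obj, X.dim = 2 → ∀ Γ : C.A (X.prod X), C.Deg 2 Γ →
    ZeroOnKer H Γ → ZeroOn H (H20 X) Γ

/-- Bloch's conjecture for the surface `X`. -/
def BlochSelf (hd : HodgeSelf H) (X : 𝒱.Obj) : Prop := ∀ Γ : C.A (X.prod X), C.Deg 2 Γ →
  (ZeroOn H (hd.H20 X) Γ ↔ ZeroOnKer H Γ)

/-- All homologically trivial correspondences from `S` to `T` are zero on the Albanese kernel. -/
def TrivialFor (S T : 𝒱.Obj) : Prop := ∀ Z : C.A (S.prod T), C.Deg 2 Z → H.cl Z = 0 →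
  ∀ z ∈ AlbKer H S, C.act Z z = 0

/-- The transpose `Γ^t` of a class `Γ` on `X × X`. -/
noncomputable def flip (C : TheoryData.{u, v, 0} 𝒱 ℚ) {X : 𝒱.Obj} (Γ : C.A (X.prod X)) :
    C.A (X.prod X) := C.up (Obj.lift (snd X X) (fst X X)) Γ

/-- All homologically trivial `Γ` in `CH^2(X × X)` with `Γ = ε • Γ^t` are zero on the Albanese
kernel (so `ε = 1`: symmetric, `ε = -1`: antisymmetric). -/
def SignedFor (ε : ℚ) (X : 𝒱.Obj) : Prop := ∀ Γ : C.A (X.prod X), C.Deg 2 Γ → H.cl Γ = 0 →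
  Γ = ε • flip C Γ → ZeroOnKer H Γ

/-- The map `z ↦ e^* e_* z`. -/
noncomputable def updown (C : TheoryData.{u, v, 0} 𝒱 ℚ) {X T : 𝒱.Obj} (e : X ⟶ T) (z : C.A X) :
    C.A X := C.up e (C.down e z)

/-- For every generically finite morphism `e : X ⟶ T` to a surface, the correspondence `e^* e_*`
commutes with all homologically trivial `Γ` in `CH^2(X × X)`, on the Albanese kernel. -/
def CommuteFor (X : 𝒱.Obj) : Prop := ∀ (T : 𝒱.Obj) (e : X ⟶ T) (r : ℚ), T.dim = 2 → r ≠ 0 →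
  C.down e 1 = r • 1 → ∀ Γ : C.A (X.prod X), C.Deg 2 Γ → H.cl Γ = 0 → ∀ z ∈ AlbKer H X,
    updown C e (C.act Γ z) = C.act Γ (updown C e z)

/-- Bloch's conjecture for all surfaces. -/
def BlochAll (hd : HodgeSelf H) : Prop := ∀ X : 𝒱.Obj, X.dim = 2 → BlochSelf H hd X

/-- All homologically trivial correspondences between two surfaces are zero on the Albanese
kernel. -/
def TrivialAll : Prop := ∀ S T : 𝒱.Obj, S.dim = 2 → T.dim = 2 → TrivialFor H S T

/-- `SignedFor H ε X` for all surfaces `X` in `𝒲`. -/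
def SignedOn (ε : ℚ) (𝒲 : Set 𝒱.Obj) : Prop := ∀ X ∈ 𝒲, X.dim = 2 → SignedFor H ε X

/-- `CommuteFor H X` for all surfaces `X` in `𝒲`. -/
def CommuteOn (𝒲 : Set 𝒱.Obj) : Prop := ∀ X ∈ 𝒲, X.dim = 2 → CommuteFor H X

/-- Every surface is dominated by a surface in `𝒲`. -/
def DominatesAll (C : TheoryData.{u, v, 0} 𝒱 ℚ) (𝒲 : Set 𝒱.Obj) : Prop :=
  ∀ V : 𝒱.Obj, V.dim = 2 → ∃ W ∈ 𝒲, W.dim = 2 ∧ Dominates C W V

/-- The surface `V` dominates a surface `W`, the complete intersection of two divisors in a class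
`p^* h + q^* h'` on `S × T` (see `IsBox`). -/
def OverBox (C : TheoryData.{u, v, 0} 𝒱 ℚ) (S T V : 𝒱.Obj) : Prop :=
  V.dim = 2 ∧ ∃ (W : 𝒱.Obj) (f : W ⟶ S) (g : W ⟶ T) (h : C.A S) (h' : C.A T),
    IsBox C f g h h' ∧ Dominates C V W

end Pool.Agent.W550.Bloch
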