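import Pool.Agent.W550.Bloch.Main
import Pool.Agent.W550.Bloch.SelfDefs

/-!
# Bloch's conjecture for self-correspondences of surfaces: symmetric, antisymmetric, commuting
-/

open CategoryTheory AlgebraicGeometry

universe u v w

namespace Pool.Agent.W550.Bloch

open Pool.Agent.H914 Pool.Agent.H914.VarClass Pool.Agent.H914.VarClass.Obj Pool.Agent.W492.BB
  Pool.Agent.W550.Corr Pool.Agent.W550.Murre

variable {k : Type u} [Field k] {𝒱 : VarClass k} {C : TheoryData.{u, v, 0} 𝒱 ℚ} {K : Type w}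
  [Field K] (H : WeilTheoryData.{u, v, w} C K)

variable {H} [hC : IsChow C] [hH : IsWeil H] {S T W X Y : 𝒱.Obj}

/-- Correspondences of degree zero preserve the Albanese kernel. -/
lemma act_mem_albKer [hI : HasIso C] (hX : X.dim = 2) (hY : Y.dim = 2) {Γ : C.A (X.prod Y)}
    (hΓ : Γ ∈ C.gr (X.prod Y) 2) {z : C.A X} (hz : z ∈ AlbKer H X) :
    C.act Γ z ∈ AlbKer H Y := by
  refine ⟨⟨?_, fun D hD Δ hΔ => ?_⟩, by rw [cl_act, hz.2, H.act_map_zero]⟩
  · have := act_mem (C := C) (X := X) (Y := Y) (e := 0) (i := 2) (Γ := Γ)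
      (by rw [hX]; exact hΓ) hz.1.1
    simpa using this
  · rw [← C.act_comp]
    refine hz.1.2 D hD _ ?_
    have h1 : Γ ∈ C.gr (X.prod Y) (X.dim + 0) := by rw [hX]; exact hΓ
    have h2 : Δ ∈ C.gr (Y.prod D) (Y.dim + (-1)) := by rw [hY]; exact hΔ
    have h3 := deg_comp h1 h2
    rw [hX] at h3
    exact h3

lemma pull_mem_albKer [hI : HasIso C] (hX : X.dim = 2) (hY : Y.dim = 2) (p : X ⟶ Y) {z : C.A Y}
    (hz : z ∈ AlbKer H Y) : C.pull p z ∈ AlbKer H X := by
  rw [← C.act_cograph]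
  have h1 := deg_cograph (C := C) p
  rw [hY] at h1
  exact act_mem_albKer hY hX h1 hz

lemma push_mem_albKer [hI : HasIso C] (hX : X.dim = 2) (hY : Y.dim = 2) (p : X ⟶ Y) {z : C.A X}
    (hz : z ∈ AlbKer H X) : C.push p z ∈ AlbKer H Y := by
  rw [← C.act_graph]
  have h1 := deg_graph (C := C) p
  rw [hY] at h1
  exact act_mem_albKer hX hY h1 hz

lemma tp_graph [hI : HasIso C] (p : X ⟶ Y) : tp C (C.graph p) = C.cograph p := by
  rw [tp, pull_iso C (sw Y X) (sw X Y) sw_sw sw_sw, TheoryData.graph, ← C.push_comp,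
    TheoryData.cograph]
  congr 2
  apply prod_ext <;> simp [sw]

lemma tp_cograph [hI : HasIso C] (p : X ⟶ Y) : tp C (C.cograph p) = C.graph p := by
  rw [← tp_graph, tp_tp]

/-- The data attached to a surface `W'` dominating a complete intersection `W ⊆ S × T`. -/
lemma push_pull_zero [hI : HasIso C] [hS : IsStandard H] (hSd : S.dim = 2)
    {f : W ⟶ S} {g : W ⟶ T} {h : C.A S} {h' : C.A T} (hb : IsBox C f g h h') {W' : 𝒱.Obj}
    {e : W' ⟶ W} {r₀ : ℚ} (he : C.down e 1 = r₀ • 1) {z : C.A S} (hz : z ∈ AlbKer H S) :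
    C.push (e ≫ g) (C.pull (e ≫ f) z) = 0 := by
  have hh : h ∈ C.gr S 1 := hb.deg
  have h1 : C.push (e ≫ g) (C.pull (e ≫ f) z) = C.act (C.push (Obj.lift (e ≫ f) (e ≫ g)) 1) z := by
    rw [← cograph_comp_graph, C.act_comp, C.act_graph, C.act_cograph]
  have e1 : Obj.lift (e ≫ f) (e ≫ g) = e ≫ Obj.lift f g := by
    apply prod_ext <;> simp
  have h2 : C.push e 1 = r₀ • 1 := he
  have h3 : C.push (Obj.lift f g) 1 = (C.pull (fst S T) h + C.pull (snd S T) h') ^ 2 :=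
    hb.class_eq
  have h4 : C.push (Obj.lift (e ≫ f) (e ≫ g)) 1 = r₀ • (C.ext (h ^ 2) 1 +
      (2 : ℚ) • C.ext h h' + C.ext 1 (h' ^ 2)) := by
    rw [e1, C.push_comp, h2, map_smul, h3, TheoryData.ext, TheoryData.ext, TheoryData.ext,
      map_one, map_one, mul_one, one_mul, map_pow, map_pow, pow_two, mul_add, add_mul, add_mul,
      chow_mul_comm (C.pull (snd S T) h') (C.pull (fst S T) h), pow_two, pow_two, two_smul]
    congr 1
    abel
  have h5 : C.act (C.ext (h ^ 2) 1) z = (0 : C.A T) := by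
    have : h ^ 2 * z = 0 := by
      refine hS.gr_top S 4 _ (by rw [hSd]; norm_num) ?_
      have h6 := C.mul_mem (C.mul_mem hh hh) hz.1.1
      rw [← pow_two] at h6
      exact h6
    rw [act_ext, this, map_zero, map_zero, zero_mul]
  have h6 : C.act (C.ext h h') z = (0 : C.A T) := by
    have : h * z = 0 := by
      refine hS.gr_top S 3 _ (by rw [hSd]; norm_num) ?_
      exact C.mul_mem hh hz.1.1
    rw [act_ext, this, map_zero, map_zero, zero_mul]
  have h7 : C.act (C.ext 1 (h' ^ 2)) z = (0 : C.A T) := by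
    rw [act_ext, one_mul]
    have : C.push (snd S T) (C.pull (fst S T) z) = 0 := by
      apply hS.cl_inj T
      · have h8 := C.push_mem (snd S T) (C.pull_mem (fst S T) hz.1.1)
        rwa [show (2 : ℤ) + 1 * ((T.dim : ℤ) - ((S.prod T).dim : ℤ)) = 0 by
          simp only [dim_prod, hSd]; push_cast; ring] at h8
      · rw [H.cl_push, H.cl_pull, hz.2, map_zero, map_zero]
    rw [this, zero_mul]
  rw [h1, h4]
  have h8 : ∀ (a b c : C.A (S.prod T)), C.act (r₀ • (a + (2 : ℚ) • b + c)) z =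
      r₀ • (C.act a z + (2 : ℚ) • C.act b z + C.act c z) := by
    intro a b c
    simp only [← actB_apply, map_smul, map_add, LinearMap.smul_apply, LinearMap.add_apply]
  rw [h8, h5, h6, h7, smul_zero, add_zero, add_zero, smul_zero]

section reductions

variable [hI : HasIso C] [hS : IsStandard H] (hSd : S.dim = 2) (hTd : T.dim = 2)
  {f : W ⟶ S} {g : W ⟶ T} {h : C.A S} {h' : C.A T} (hb : IsBox C f g h h')
  {W' : 𝒱.Obj} (hWd' : W'.dim = 2) (hdom : Dominates C W' W)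

include hSd hTd hb hWd' hdom

/-- The common setup. -/
lemma setup {Z : C.A (S.prod T)} (hZ : C.Deg 2 Z) (hZ0 : H.cl Z = 0) :
    ∃ (P : W' ⟶ S) (Q : W' ⟶ T) (Ψ : C.A (W'.prod W')) (r r' : ℚ), r ≠ 0 ∧ r' ≠ 0 ∧
      C.down P 1 = r • 1 ∧ C.down Q 1 = r' • 1 ∧ C.Deg 2 Ψ ∧ H.cl Ψ = 0 ∧
      (∀ x, C.act Ψ x = C.pull Q (C.act Z (C.push P x))) ∧
      (∀ x, C.act (tp C Ψ) x = C.pull P (C.act (tp C Z) (C.push Q x))) ∧
      ∀ z ∈ AlbKer H S, C.push Q (C.pull P z) = 0 := by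
  obtain ⟨e, r₀, hr₀, he⟩ := hdom
  obtain ⟨r₁, hr₁, hf⟩ := hb.down
  obtain ⟨r₂, hr₂, hg⟩ := hb.down'
  have he' : C.push e 1 = r₀ • 1 := he
  refine ⟨e ≫ f, e ≫ g, C.comp (C.comp (C.graph (e ≫ f)) Z) (C.cograph (e ≫ g)), r₀ * r₁,
    r₀ * r₂, mul_ne_zero hr₀ hr₁, mul_ne_zero hr₀ hr₂, ?_, ?_, ?_, ?_, fun x => ?_, fun x => ?_,
    fun z hz => push_pull_zero hSd hb he hz⟩
  · have h2 : C.push f 1 = r₁ • 1 := hf
    change C.push (e ≫ f) 1 = _
    rw [C.push_comp, he', map_smul, h2, smul_smul]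
  · have h2 : C.push g 1 = r₂ • 1 := hg
    change C.push (e ≫ g) 1 = _
    rw [C.push_comp, he', map_smul, h2, smul_smul]
  · have h1 : C.graph (e ≫ f) ∈ C.gr (W'.prod S) (W'.dim + 0) := by
      have := deg_graph (C := C) (e ≫ f)
      rwa [hSd, ← hWd', ← add_zero (W'.dim : ℤ)] at this
    have h2 : Z ∈ C.gr (S.prod T) (S.dim + 0) := by
      rw [hSd]; exact hZ
    have h3 : C.cograph (e ≫ g) ∈ C.gr (T.prod W') (T.dim + 0) := by
      rw [add_zero]; exact deg_cograph (e ≫ g)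
    have h4 := deg_comp (deg_comp h1 h2) h3
    rw [hWd'] at h4
    simpa using h4
  · rw [cl_comp, cl_comp, hZ0, comp_zero, zero_comp]
  · rw [C.act_comp, C.act_comp, C.act_graph, C.act_cograph]
  · rw [tp_comp, tp_comp, tp_graph, tp_cograph, C.act_comp, C.act_comp, C.act_graph,
      C.act_cograph]

theorem trivial_of_signed {ε : ℚ} (hε : ε * ε = 1) (hsg : SignedFor H ε W') :
    TrivialFor H S T := by
  intro Z hZ hZ0 z hz
  obtain ⟨P, Q, Ψ, r, r', hr, hr', hP, hQ, hΨ, hΨ0, hact, hactt, hQP⟩ :=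
    setup hSd hTd hb hWd' hdom hZ hZ0
  have htp : tp C Ψ ∈ C.gr (W'.prod W') 2 := C.pull_mem _ hΨ
  have htp0 : H.cl (tp C Ψ) = 0 := by rw [tp, H.cl_pull, hΨ0, map_zero]
  have hPz : C.pull P z ∈ AlbKer H W' := pull_mem_albKer hWd' hSd P hz
  have h1 := hsg (Ψ + ε • tp C Ψ) (Submodule.add_mem _ hΨ (Submodule.smul_mem _ _ htp))
    (by
      have h2 : H.cl (ε • tp C Ψ) = 0 := by
        rw [Algebra.smul_def, map_mul, htp0, mul_zero]
      rw [map_add, hΨ0, h2, add_zero])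
    (by
      have h2 : tp C (Ψ + ε • tp C Ψ) = tp C Ψ + ε • Ψ := by
        rw [tp, map_add, map_smul]
        change tp C Ψ + ε • tp C (tp C Ψ) = _
        rw [tp_tp]
      change Ψ + ε • tp C Ψ = ε • tp C (Ψ + ε • tp C Ψ)
      rw [h2, smul_add, smul_smul, hε, one_smul, add_comm]) _ hPz
  have h2 : C.act (Ψ + ε • tp C Ψ) (C.pull P z) =
      C.act Ψ (C.pull P z) + ε • C.act (tp C Ψ) (C.pull P z) := by
    simp only [← actB_apply, map_smul, map_add, LinearMap.smul_apply, LinearMap.add_apply]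
  rw [h2, hact, hactt, hQP z hz, C.act_map_zero, map_zero, smul_zero, add_zero,
    push_pull P hP, act_map_smul, map_smul] at h1
  have h3 : C.pull Q (C.act Z z) = 0 := (smul_eq_zero.1 h1).resolve_left hr
  have h4 := push_pull Q hQ (C.act Z z)
  rw [h3, map_zero] at h4
  exact (smul_eq_zero.1 h4.symm).resolve_left hr'

theorem trivial_of_commute (hcm : CommuteFor H W') : TrivialFor H S T := by
  intro Z hZ hZ0 z hz
  obtain ⟨P, Q, Ψ, r, r', hr, hr', hP, hQ, hΨ, hΨ0, hact, _, hQP⟩ :=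
    setup hSd hTd hb hWd' hdom hZ hZ0
  have hPz : C.pull P z ∈ AlbKer H W' := pull_mem_albKer hWd' hSd P hz
  have h1 := hcm T Q r' hTd hr' hQ Ψ hΨ hΨ0 _ hPz
  change C.pull Q (C.push Q (C.act Ψ (C.pull P z))) =
    C.act Ψ (C.pull Q (C.push Q (C.pull P z))) at h1
  rw [hQP z hz, map_zero, C.act_map_zero, hact, push_pull P hP, act_map_smul, push_pull Q hQ,
    map_smul, map_smul, smul_smul] at h1
  have h3 : C.pull Q (C.act Z z) = 0 := (smul_eq_zero.1 h1).resolve_left (mul_ne_zero hr' hr)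
  have h4 := push_pull Q hQ (C.act Z z)
  rw [h3, map_zero] at h4
  exact (smul_eq_zero.1 h4.symm).resolve_left hr'

end reductions

/-- Compositions through curves kill the Albanese kernel, and the conjecture for `X` is its
homologically trivial case. -/
theorem blochSelf_iff (hS : IsStandard H) (hd : HodgeSelf H) (hX : X.dim = 2) :
    BlochSelf H hd X ↔ TrivialFor H X X := by
  have hI : HasIso C := hasIso_of_std H hS
  constructor
  · intro h Z hZ hZ0 z hz
    refine (h Z hZ).1 (fun ω _ => ?_) z hz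
    rw [hZ0, H.act_zero]
  · intro h Γ hΓ
    refine ⟨fun hω z hz => ?_, hd.mumford X hX Γ hΓ⟩
    obtain ⟨Y, hY, hZY⟩ := (hd.lefschetz X hX Γ hΓ).1 hω
    have hYm : Y ∈ C.gr (X.prod X) 2 := by
      have h1 : ThroughCurves C X X ≤ C.gr (X.prod X) 2 := by
        refine Submodule.span_le.2 ?_
        rintro _ ⟨D, hD, Γ, Δ, h, rfl⟩
        rcases h with h | h
        · have h2 : Γ ∈ C.gr (X.prod D) (X.dim + (-1)) := by rw [hX]; exact h.1
          have h3 : Δ ∈ C.gr (D.prod X) (D.dim + 1) := by rw [hD]; exact h.2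
          have h4 := deg_comp h2 h3
          rw [hX] at h4
          simpa using h4
        · have h2 : Γ ∈ C.gr (X.prod D) (X.dim + 0) := by rw [hX]; exact h.1
          have h3 : Δ ∈ C.gr (D.prod X) (D.dim + 0) := by rw [hD]; exact h.2
          have h4 := deg_comp h2 h3
          rw [hX] at h4
          simpa using h4
      exact h1 hY
    have h1 := h (Γ - Y) (Submodule.sub_mem _ hΓ hYm) (by rw [map_sub, hZY, sub_self]) z hz
    rw [C.act_sub, act_throughCurves (H := H) hX hY hz.1, sub_zero] at h1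
    exact h1

theorem self_tfae (hS : IsStandard H) (hB : HasBoxes C) (hd : HodgeSelf H) (𝒲 : Set 𝒱.Obj)
    (h𝒲 : DominatesAll C 𝒲) :
    [BlochAll H hd, TrivialAll H, SignedOn H 1 𝒲, SignedOn H (-1) 𝒲, CommuteOn H 𝒲].TFAE := by
  have hI : HasIso C := hasIso_of_std H hS
  have hbase : ∀ S T : 𝒱.Obj, S.dim = 2 → T.dim = 2 → ∃ (W : 𝒱.Obj) (f : W ⟶ S) (g : W ⟶ T)
      (h : C.A S) (h' : C.A T) (W' : 𝒱.Obj), W' ∈ 𝒲 ∧ W'.dim = 2 ∧ IsBox C f g h h' ∧
        Dominates C W' W := by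
    intro S T hSd hTd
    obtain ⟨W, f, g, a, b, hWd, hb⟩ := hB S T hSd hTd
    obtain ⟨W', hW', hWd', hdom⟩ := h𝒲 W hWd
    exact ⟨W, f, g, a, b, W', hW', hWd', hb, hdom⟩
  tfae_have 2 → 1 := fun h X hX => (blochSelf_iff hS hd hX).2 (h X X hX hX)
  tfae_have 1 → 3 := fun h X _ hX Γ hΓ hΓ0 _ z hz =>
    (blochSelf_iff hS hd hX).1 (h X hX) Γ hΓ hΓ0 z hz
  tfae_have 1 → 4 := fun h X _ hX Γ hΓ hΓ0 _ z hz =>
    (blochSelf_iff hS hd hX).1 (h X hX) Γ hΓ hΓ0 z hz
  tfae_have 1 → 5 := by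
    intro h X _ hX T e r hT hr he Γ hΓ hΓ0 z hz
    have h1 := (blochSelf_iff hS hd hX).1 (h X hX)
    have h2 : C.up e (C.down e z) ∈ AlbKer H X :=
      pull_mem_albKer hX hT e (push_mem_albKer hX hT e hz)
    rw [h1 Γ hΓ hΓ0 z hz, updown, updown, h1 Γ hΓ hΓ0 _ h2]
    simp
  tfae_have 3 → 2 := by
    intro h S T hSd hTd
    obtain ⟨W, f, g, a, b, W', hW', hWd', hb, hdom⟩ := hbase S T hSd hTd
    exact trivial_of_signed hSd hTd hb hWd' hdom (by norm_num) (h W' hW' hWd')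
  tfae_have 4 → 2 := by
    intro h S T hSd hTd
    obtain ⟨W, f, g, a, b, W', hW', hWd', hb, hdom⟩ := hbase S T hSd hTd
    exact trivial_of_signed hSd hTd hb hWd' hdom (by norm_num) (h W' hW' hWd')
  tfae_have 5 → 2 := by
    intro h S T hSd hTd
    obtain ⟨W, f, g, a, b, W', hW', hWd', hb, hdom⟩ := hbase S T hSd hTd
    exact trivial_of_commute hSd hTd hb hWd' hdom (h W' hW' hWd')
  tfae_finish

end Pool.Agent.W550.Bloch
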